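import Mathlib
import Pool.Agent.Helper96_LAX.Stmts

/-!
# LAX: module LNK (the links of the classes of a block)
-/

set_option autoImplicit false

namespace Pool.Agent.LAX.H9

variable {V : Type}

lemma ncard_biUnion_le {α : Type} (t : Finset ℕ) (s : ℕ → Set α) (a : ℕ)
    (h : ∀ i ∈ t, (s i).ncard ≤ a) : (⋃ i ∈ t, s i).ncard ≤ t.card * a := by
  classical
  induction t using Finset.induction_on with
  | empty => simp
  | insert i t hi ih =>
    rw [Finset.set_biUnion_insert, Finset.card_insert_of_notMem hi]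
    have h1 := h i (Finset.mem_insert_self _ _)
    have h2 := ih fun j hj => h j (Finset.mem_insert_of_mem hj)
    have h3 := Set.ncard_union_le (s i) (⋃ x ∈ t, s x)
    calc (s i ∪ ⋃ x ∈ t, s x).ncard ≤ (s i).ncard + (⋃ x ∈ t, s x).ncard := h3
      _ ≤ a + t.card * a := add_le_add h1 h2
      _ = (t.card + 1) * a := by ring

/-- The tails of `F \ S` avoid the tails of `S`. -/
lemma notMem_dom_diff {F S : Set (V × V)} (hF : PI F) (hS : S ⊆ F) {x : V} (hx : x ∈ dom S) :
    x ∉ dom (F \ S) := by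
  rintro ⟨y, hy⟩
  obtain ⟨z, hz⟩ := hx
  have : y = z := hF.1 x y z hy.1 (hS hz)
  exact hy.2 (this ▸ hz)

lemma notMem_ran_diff {F S : Set (V × V)} (hF : PI F) (hS : S ⊆ F) {y : V} (hy : y ∈ ran S) :
    y ∉ ran (F \ S) := by
  rintro ⟨x, hx⟩
  obtain ⟨z, hz⟩ := hy
  have : x = z := hF.2 x z y hx.1 (hS hz)
  exact hx.2 (this ▸ hz)

lemma PI.mono {F G : Set (V × V)} (hG : PI G) (h : F ⊆ G) : PI F :=
  ⟨fun x y y' h1 h2 => hG.1 x y y' (h h1) (h h2), fun x x' y h1 h2 => hG.2 x x' y (h h1) (h h2)⟩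

/-- At most `Hb` arcs of the classes `M c`, `c ∈ C`, leave `x`. -/
lemma used_out [Finite V] (C : Finset ℕ) (S M : ℕ → Set (V × V)) (Hb : ℕ) (x : V)
    (hM : ∀ c ∈ C, PI (M c) ∧ dom (M c) ⊆ dom (S c))
    (h : {c | c ∈ C ∧ x ∈ dom (S c)}.ncard ≤ Hb) :
    {y | ∃ c ∈ C, (x, y) ∈ M c}.ncard ≤ Hb := by
  classical
  have h1 : {c | c ∈ C ∧ x ∈ dom (S c)} = ((C.filter fun c => x ∈ dom (S c) : Finset ℕ) : Set ℕ) := by
    ext c
    simp
  rw [h1, Set.ncard_coe_finset] at h
  have h2 : {y | ∃ c ∈ C, (x, y) ∈ M c} ⊆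
      ⋃ c ∈ C.filter fun c => x ∈ dom (S c), {y | (x, y) ∈ M c} := by
    rintro y ⟨c, hc, hy⟩
    rw [Set.mem_iUnion₂]
    exact ⟨c, Finset.mem_filter.2 ⟨hc, (hM c hc).2 ⟨y, hy⟩⟩, hy⟩
  refine (Set.ncard_le_ncard h2 (Set.toFinite _)).trans ?_
  refine (ncard_biUnion_le _ _ 1 fun c hc => ?_).trans (by simpa using h)
  rw [Set.ncard_le_one (Set.toFinite _)]
  intro y hy y' hy'
  exact (hM c (Finset.mem_filter.1 hc).1).1.1 x y y' hy hy'

lemma used_in [Finite V] (C : Finset ℕ) (S M : ℕ → Set (V × V)) (Hb : ℕ) (y : V)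
    (hM : ∀ c ∈ C, PI (M c) ∧ ran (M c) ⊆ ran (S c))
    (h : {c | c ∈ C ∧ y ∈ ran (S c)}.ncard ≤ Hb) :
    {x | ∃ c ∈ C, (x, y) ∈ M c}.ncard ≤ Hb := by
  classical
  have h1 : {c | c ∈ C ∧ y ∈ ran (S c)} = ((C.filter fun c => y ∈ ran (S c) : Finset ℕ) : Set ℕ) := by
    ext c
    simp
  rw [h1, Set.ncard_coe_finset] at h
  have h2 : {x | ∃ c ∈ C, (x, y) ∈ M c} ⊆
      ⋃ c ∈ C.filter fun c => y ∈ ran (S c), {x | (x, y) ∈ M c} := by
    rintro x ⟨c, hc, hx⟩
    rw [Set.mem_iUnion₂]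
    exact ⟨c, Finset.mem_filter.2 ⟨hc, (hM c hc).2 ⟨x, hx⟩⟩, hx⟩
  refine (Set.ncard_le_ncard h2 (Set.toFinite _)).trans ?_
  refine (ncard_biUnion_le _ _ 1 fun c hc => ?_).trans (by simpa using h)
  rw [Set.ncard_le_one (Set.toFinite _)]
  intro x hx x' hx'
  exact (hM c (Finset.mem_filter.1 hc).1).1.2 x x' y hx hx'

theorem lnk (hGL : GLStmt) (hPth : PthStmt) : LnkStmt := by
  classical
  intro V _ R F S C Eb b D D' ζ Hb hb1 hbD hDD hPI hS hH hcut
  have main : ∀ C' : Finset ℕ, C' ⊆ C →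
      ∃ M : ℕ → Set (V × V), (∀ c ∈ C', M c ⊆ R ∧ Rel1 (F c) (S c) (M c) b) ∧
        (∀ c ∈ C', ∀ d ∈ C', c ≠ d → Disjoint (M c) (M d)) ∧
        (∀ c ∈ C', ∀ v, (v ∈ dom (S c) → v ∉ dom (M c) → v ∈ Eb) ∧
          (v ∈ ran (S c) → v ∉ ran (M c) → v ∈ Eb)) := by
    intro C'
    induction C' using Finset.induction_on with
    | empty =>
      intro _
      exact ⟨fun _ => ∅, by simp, by simp, by simp⟩
    | insert c0 C' hc0 ih =>
      intro hsub
      obtain ⟨M, hM1, hM2, hM3⟩ := ih fun c hc => hsub (Finset.mem_insert_of_mem hc)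
      have hc0C : c0 ∈ C := hsub (Finset.mem_insert_self _ _)
      have hC'C : ∀ c ∈ C', c ∈ C := fun c hc => hsub (Finset.mem_insert_of_mem hc)
      set X : Set V := dom (S c0) with hX
      set Y : Set V := ran (S c0) with hY
      set H : Set (V × V) := {a | a ∈ R ∧ (∀ c ∈ C', a ∉ M c) ∧ a.1 ∈ X ∧ a.2 ∈ Y} with hHdef
      set T : Set (V × V) := pth (F c0 \ S c0) Y X with hT
      have hScF : S c0 ⊆ F c0 := (hS c0 hc0C).1
      have hPIc : PI (F c0) := hPI c0 hc0C
      have hTPI : PI T := hPth V (F c0 \ S c0) Y X (PI.mono hPIc Set.sdiff_subset)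
        (fun x hx => notMem_dom_diff hPIc hScF hx) (fun y hy => notMem_ran_diff hPIc hScF hy)
      have hMd : ∀ c ∈ C', PI (M c) ∧ dom (M c) ⊆ dom (S c) := fun c hc =>
        ⟨(hM1 c hc).2.pi, (hM1 c hc).2.dm⟩
      have hMr : ∀ c ∈ C', PI (M c) ∧ ran (M c) ⊆ ran (S c) := fun c hc =>
        ⟨(hM1 c hc).2.pi, (hM1 c hc).2.rn⟩
      have hUo : ∀ x, {y | ∃ c ∈ C', (x, y) ∈ M c}.ncard ≤ Hb := by
        intro x
        refine used_out C' S M Hb x hMd (le_trans (Set.ncard_le_ncard ?_ ?_) (hH x).1)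
        · rintro c ⟨hc, hx⟩
          exact ⟨hC'C c hc, hx⟩
        · exact Set.Finite.subset (C.finite_toSet) fun c hc => hc.1
      have hUi : ∀ y, {x | ∃ c ∈ C', (x, y) ∈ M c}.ncard ≤ Hb := by
        intro y
        refine used_in C' S M Hb y hMr (le_trans (Set.ncard_le_ncard ?_ ?_) (hH y).2)
        · rintro c ⟨hc, hx⟩
          exact ⟨hC'C c hc, hx⟩
        · exact Set.Finite.subset (C.finite_toSet) fun c hc => hc.1
      have hcutc := hcut c0 hc0C
      have hdegX : ∀ x ∈ X, D ≤ (out H x).ncard ∧ (out H x).ncard ≤ D' ∧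
          ζ ≤ (out H x ∩ Eb).ncard := by
        intro x hx
        obtain ⟨_, h1, h2, h3⟩ := hcutc x
        refine ⟨?_, ?_, ?_⟩
        · have h4 : out R x ∩ ran (S c0) ⊆ out H x ∪ {y | ∃ c ∈ C', (x, y) ∈ M c} := by
            rintro y ⟨hy1, hy2⟩
            by_cases h5 : ∃ c ∈ C', (x, y) ∈ M c
            · exact Or.inr h5
            · push Not at h5
              exact Or.inl ⟨hy1, h5, hx, hy2⟩
          have h5 := (Set.ncard_le_ncard h4 (Set.toFinite _)).trans (Set.ncard_union_le _ _)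
          have h6 := hUo x
          omega
        · refine (Set.ncard_le_ncard ?_ (Set.toFinite _)).trans h2
          rintro y hy
          exact ⟨hy.1, hy.2.2.2⟩
        · have h4 : out R x ∩ Eb ∩ ran (S c0) ⊆ (out H x ∩ Eb) ∪ {y | ∃ c ∈ C', (x, y) ∈ M c} := by
            rintro y ⟨⟨hy1, hy3⟩, hy2⟩
            by_cases h5 : ∃ c ∈ C', (x, y) ∈ M c
            · exact Or.inr h5
            · push Not at h5
              exact Or.inl ⟨⟨hy1, h5, hx, hy2⟩, hy3⟩
          have h5 := (Set.ncard_le_ncard h4 (Set.toFinite _)).trans (Set.ncard_union_le _ _)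
          have h6 := hUo x
          omega
      have hdegY : ∀ y ∈ Y, D ≤ (inn H y).ncard ∧ (inn H y).ncard ≤ D' ∧
          ζ ≤ (inn H y ∩ Eb).ncard := by
        intro y hy
        obtain ⟨⟨h1, h2, h3⟩, _⟩ := hcutc y
        refine ⟨?_, ?_, ?_⟩
        · have h4 : inn R y ∩ dom (S c0) ⊆ inn H y ∪ {x | ∃ c ∈ C', (x, y) ∈ M c} := by
            rintro x ⟨hx1, hx2⟩
            by_cases h5 : ∃ c ∈ C', (x, y) ∈ M c
            · exact Or.inr h5
            · push Not at h5
              exact Or.inl ⟨hx1, h5, hx2, hy⟩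
          have h5 := (Set.ncard_le_ncard h4 (Set.toFinite _)).trans (Set.ncard_union_le _ _)
          have h6 := hUi y
          omega
        · refine (Set.ncard_le_ncard ?_ (Set.toFinite _)).trans h2
          rintro x hx
          exact ⟨hx.1, hx.2.2.1⟩
        · have h4 : inn R y ∩ Eb ∩ dom (S c0) ⊆ (inn H y ∩ Eb) ∪ {x | ∃ c ∈ C', (x, y) ∈ M c} := by
            rintro x ⟨⟨hx1, hx3⟩, hx2⟩
            by_cases h5 : ∃ c ∈ C', (x, y) ∈ M c
            · exact Or.inr h5
            · push Not at h5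
              exact Or.inl ⟨⟨hx1, h5, hx2, hy⟩, hx3⟩
          have h5 := (Set.ncard_le_ncard h4 (Set.toFinite _)).trans (Set.ncard_union_le _ _)
          have h6 := hUi y
          omega
      obtain ⟨N, hN1, hN2, hN3, hN4, hN5⟩ := hGL V V X Eb Y Eb H T b D D' ζ hb1 hbD hDD hTPI
        (fun p hp => ⟨hp.2.2.1, hp.2.2.2⟩) hdegX hdegY
      have hup : ∀ c ∈ C', Function.update M c0 N c = M c := by
        intro c hc
        refine Function.update_of_ne ?_ _ _
        rintro rfl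
        exact hc0 hc
      have hup0 : Function.update M c0 N c0 = N := Function.update_self _ _ _
      have hdisj : ∀ c ∈ C', Disjoint N (M c) := by
        intro c hc
        rw [Set.disjoint_left]
        intro a ha
        exact (hN1 ha).2.1 c hc
      refine ⟨Function.update M c0 N, ?_, ?_, ?_⟩
      · intro c hc
        rcases Finset.mem_insert.1 hc with rfl | hc
        · rw [hup0]
          refine ⟨fun a ha => (hN1 ha).1, ⟨hScF, (hS _ hc0C).2, hN2, ?_, ?_, hN3⟩⟩
          · rintro x ⟨y, hxy⟩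
            exact (hN1 hxy).2.2.1
          · rintro y ⟨x, hxy⟩
            exact (hN1 hxy).2.2.2
        · rw [hup c hc]
          exact hM1 c hc
      · intro c hc d hd hne
        rcases Finset.mem_insert.1 hc with h1 | h1 <;> rcases Finset.mem_insert.1 hd with h2 | h2
        · exact absurd (h1.trans h2.symm) hne
        · rw [h1, hup0, hup d h2]
          exact hdisj d h2
        · rw [h2, hup0, hup c h1]
          exact (hdisj c h1).symm
        · rw [hup c h1, hup d h2]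
          exact hM2 c h1 d h2 hne
      · intro c hc v
        rcases Finset.mem_insert.1 hc with rfl | hc
        · rw [hup0]
          constructor
          · intro h1 h2
            by_contra h3
            exact h2 (hN4 v h1 h3)
          · intro h1 h2
            by_contra h3
            exact h2 (hN5 v h1 h3)
        · rw [hup c hc]
          exact hM3 c hc v
  exact main C (Finset.Subset.refl _)

end Pool.Agent.LAX.H9
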