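import Mathlib
import Pool.Agent.Helper9_LAX.Lnk

/-!
# LAX: module FCA (the final cut of all classes)
-/

set_option autoImplicit false

namespace Pool.Agent.LAX.H9

variable {V : Type}

theorem fca (hDcp : DcpStmt) (hGrp : GrpStmt) (hPth : PthStmt) : FcaStmt := by
  classical
  intro k l s I h hp V _ E hE F Z S M hC hSt
  have p4 := hp.p4
  have p5 := hp.p5
  have i1 := hp.i1
  have i2 := hp.i2
  -- arithmetic
  set P : ℕ := 2 ^ (h + l) with hP
  set q : ℕ := 2 ^ (s + I) with hq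
  set n : ℕ := 2 ^ (I + 5) with hn
  set B : ℕ := 2 ^ (s + 1 - l) with hB
  set G : ℕ := 2 ^ (h + s + 1) with hG
  set NG : ℕ := 2 ^ (I - h - 1) with hNG
  have hnP : n * P = q := by
    rw [hn, hP, hq, ← pow_add]
    congr 1
    omega
  have hBP : B * P = G := by
    rw [hB, hP, hG, ← pow_add]
    congr 1
    omega
  have hNGG : NG * G = q := by
    rw [hNG, hG, hq, ← pow_add]
    congr 1
    omega
  have hNGle : NG ≤ 2 ^ (s + 3) := by
    rw [hNG]
    exact Nat.pow_le_pow_right (by norm_num) (by omega)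
  have hBH : B * 2 ^ (l + 4) = 2 ^ (s + 5) := by
    rw [hB, ← pow_add]
    congr 1
    omega
  have hPpos : 0 < P := by positivity
  have hGpos : 0 < G := by positivity
  have hrel : ∀ c < q, Rel1 (F c) (S c) (M c) (2 ^ (s + 8)) := fun c hc =>
    hSt.rel c (by rw [hnP]; exact hc)
  set T : ℕ → Set (V × V) := fun c => pth (F c \ S c) (ran (S c)) (dom (S c)) with hT
  have hTPI : ∀ c < q, PI (T c) := fun c hc =>
    hPth V (F c \ S c) _ _ (PI.mono (hC.pi c hc) Set.sdiff_subset)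
      (fun x hx => notMem_dom_diff (hC.pi c hc) (hrel c hc).sub hx)
      (fun y hy => notMem_ran_diff (hC.pi c hc) (hrel c hc).sub hy)
  -- groups
  set gr : ℕ → Finset ℕ := fun j => (Finset.range q).filter fun c => c / G = j with hgr
  -- a class of group `j` is in one of the `B` blocks
  have hfew : ∀ (j : ℕ) (A : ℕ → Set ℕ), (∀ m < n, (A m).ncard ≤ 2 ^ (l + 4)) →
      (∀ m, A m ⊆ {c | m * P ≤ c ∧ c < (m + 1) * P}) → ∀ U : Set ℕ,
      (∀ c ∈ U, c ∈ gr j ∧ c ∈ A (c / P)) → U.ncard ≤ 2 ^ (s + 5) := by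
    intro j A hA hA2 U hU
    have h1 : U ⊆ ⋃ m ∈ (Finset.range n).filter (fun m => m / B = j), A m := by
      intro c hc
      obtain ⟨h2, h3⟩ := hU c hc
      rw [hgr, Finset.mem_filter, Finset.mem_range] at h2
      rw [Set.mem_iUnion₂]
      refine ⟨c / P, ?_, h3⟩
      rw [Finset.mem_filter, Finset.mem_range]
      constructor
      · rw [Nat.div_lt_iff_lt_mul hPpos, hnP]
        exact h2.1
      · rw [Nat.div_div_eq_div_mul, mul_comm P B, hBP]
        exact h2.2
    have hfin : (⋃ m ∈ (Finset.range n).filter (fun m => m / B = j), A m).Finite := by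
      refine Set.Finite.biUnion (Finset.finite_toSet _) fun m _ => ?_
      exact Set.Finite.subset (Set.finite_Iio ((m + 1) * P)) fun c hc => (hA2 m hc).2
    refine (Set.ncard_le_ncard h1 hfin).trans ?_
    have hBpos : 0 < B := by positivity
    have hcard : ((Finset.range n).filter (fun m => m / B = j)).card ≤ B := by
      have h5 : (Finset.range n).filter (fun m => m / B = j) ⊆ Finset.Ico (j * B) (j * B + B) := by
        intro m hm
        rw [Finset.mem_filter] at hm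
        rw [Finset.mem_Ico]
        have h6 := Nat.div_mul_le_self m B
        have h7 := Nat.lt_div_mul_add (a := m) hBpos
        rw [hm.2] at h6 h7
        exact ⟨h6, h7⟩
      refine (Finset.card_le_card h5).trans ?_
      simp
    refine (ncard_biUnion_le _ _ (2 ^ (l + 4)) fun m hm => hA m ?_).trans ?_
    · exact Finset.mem_range.1 (Finset.mem_filter.1 hm).1
    · calc _ ≤ B * 2 ^ (l + 4) := Nat.mul_le_mul_right _ hcard
        _ = 2 ^ (s + 5) := hBH
  have hblock : ∀ c, c / P * P ≤ c ∧ c < (c / P + 1) * P := by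
    intro c
    refine ⟨Nat.div_mul_le_self c P, ?_⟩
    rw [add_mul, one_mul]
    exact Nat.lt_div_mul_add hPpos
  have hgrX : ∀ j, ∃ X : ℕ → Set (V × V),
      (∀ c ∈ gr j, X c ⊆ M c ∧ Acyc (comp (T c) (M c \ X c))) ∧
      ∀ v, {c | c ∈ gr j ∧ v ∈ dom (X c)}.ncard ≤ 1 ∧ {c | c ∈ gr j ∧ v ∈ ran (X c)}.ncard ≤ 1 := by
    intro j
    have hmem : ∀ c ∈ gr j, c < q := fun c hc => by
      rw [hgr, Finset.mem_filter, Finset.mem_range] at hc
      exact hc.1
    refine hGrp V (gr j) T M (2 ^ (s + 8)) (2 ^ (s + 5)) (Nat.one_le_two_pow) ?_ ?_ ?_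
    · have : (2 : ℕ) ^ (s + 8) = 4 * (2 * 2 ^ (s + 5)) := by
        rw [pow_add, pow_add]
        ring
      rw [this]
    · intro c hc
      exact ⟨hTPI c (hmem c hc), (hrel c (hmem c hc)).pi, (hrel c (hmem c hc)).cw⟩
    · intro v
      constructor
      · refine hfew j (fun m => {c | m * P ≤ c ∧ c < (m + 1) * P ∧ v ∈ dom (S c)})
          (fun m hm => (hSt.few m hm v).1) (fun m c hc => ⟨hc.1, hc.2.1⟩) _ ?_
        rintro c ⟨hc, hv⟩
        exact ⟨hc, (hblock c).1, (hblock c).2, (hrel c (hmem c hc)).dm hv⟩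
      · refine hfew j (fun m => {c | m * P ≤ c ∧ c < (m + 1) * P ∧ v ∈ ran (S c)})
          (fun m hm => (hSt.few m hm v).2) (fun m c hc => ⟨hc.1, hc.2.1⟩) _ ?_
        rintro c ⟨hc, hv⟩
        exact ⟨hc, (hblock c).1, (hblock c).2, (hrel c (hmem c hc)).rn hv⟩
  choose X hX1 hX2 using hgrX
  have hgc : ∀ c < q, c ∈ gr (c / G) := by
    intro c hc
    rw [hgr, Finset.mem_filter, Finset.mem_range]
    exact ⟨hc, rfl⟩
  set X' : ℕ → Set (V × V) := fun c => X (c / G) c with hX'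
  have hXj : ∀ j c, c ∈ gr j → X' c = X j c := by
    intro j c hc
    have h1 : c / G = j := by
      rw [hgr, Finset.mem_filter] at hc
      exact hc.2
    change X (c / G) c = X j c
    rw [h1]
  have hX'M : ∀ c < q, X' c ⊆ M c := fun c hc => (hX1 (c / G) c (hgc c hc)).1
  -- count of the cuts
  have hcnt : ∀ (pr : ℕ → Prop), (∀ j, {c | c ∈ gr j ∧ pr c}.ncard ≤ 1) →
      {c | c < q ∧ pr c}.ncard ≤ 2 ^ (s + 3) := by
    intro pr hpr
    have h1 : {c | c < q ∧ pr c} ⊆ ⋃ j ∈ Finset.range NG, {c | c ∈ gr j ∧ pr c} := by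
      rintro c ⟨hc, hv⟩
      rw [Set.mem_iUnion₂]
      refine ⟨c / G, ?_, hgc c hc, hv⟩
      rw [Finset.mem_range, Nat.div_lt_iff_lt_mul hGpos, hNGG]
      exact hc
    have hfin : (⋃ j ∈ Finset.range NG, {c | c ∈ gr j ∧ pr c}).Finite := by
      refine Set.Finite.biUnion (Finset.finite_toSet _) fun j _ => ?_
      exact Set.Finite.subset (Finset.finite_toSet (gr j)) fun c hc => hc.1
    refine (Set.ncard_le_ncard h1 hfin).trans ?_
    refine (ncard_biUnion_le _ _ 1 fun j _ => hpr j).trans ?_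
    simpa using hNGle
  have hfinq : ∀ pr : ℕ → Prop, {c | c < q ∧ pr c}.Finite := fun pr =>
    Set.Finite.subset (Set.finite_Iio q) fun c hc => hc.1
  refine ⟨fun c => (F c \ S c) ∪ (M c \ X' c), ?_, ?_, ?_⟩
  · intro c hc
    have hr := hrel c hc
    have hFPI := hC.pi c hc
    refine ⟨?_, ?_, ?_⟩
    · rintro a (ha | ha)
      · exact hC.sub c hc ha.1
      · exact hSt.sub c hc ha.1
    · constructor
      · rintro x y y' (h1 | h1) (h2 | h2)
        · exact hFPI.1 x y y' h1.1 h2.1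
        · exact absurd ⟨y, h1⟩ (notMem_dom_diff hFPI hr.sub (hr.dm ⟨y', h2.1⟩))
        · exact absurd ⟨y', h2⟩ (notMem_dom_diff hFPI hr.sub (hr.dm ⟨y, h1.1⟩))
        · exact hr.pi.1 x y y' h1.1 h2.1
      · rintro x x' y (h1 | h1) (h2 | h2)
        · exact hFPI.2 x x' y h1.1 h2.1
        · exact absurd ⟨x, h1⟩ (notMem_ran_diff hFPI hr.sub (hr.rn ⟨x', h2.1⟩))
        · exact absurd ⟨x', h2⟩ (notMem_ran_diff hFPI hr.sub (hr.rn ⟨x, h1.1⟩))
        · exact hr.pi.2 x x' y h1.1 h2.1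
    · exact hDcp V (F c \ S c) (M c \ X' c) (ran (S c)) (dom (S c)) hr.acy
        (fun x ⟨y, hy⟩ => hr.dm ⟨y, hy.1⟩) (fun y ⟨x, hx⟩ => hr.rn ⟨x, hx.1⟩)
        (hX1 (c / G) c (hgc c hc)).2
  · intro c hc d hd hne
    refine (hSt.disj c hc d hd hne).mono ?_ ?_
    · rintro a (ha | ha)
      · exact Or.inl ha
      · exact Or.inr ha.1
    · rintro a (ha | ha)
      · exact Or.inl ha
      · exact Or.inr ha.1
  · intro v
    have e1 : 2 ^ s + 2 ^ (s + 13) + 2 ^ (s + 3) ≤ 2 ^ (s + 15) := by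
      have a1 : (2 : ℕ) ^ (s + 13) = 2 ^ s * 8192 := by rw [pow_add]; norm_num
      have a2 : (2 : ℕ) ^ (s + 3) = 2 ^ s * 8 := by rw [pow_add]; norm_num
      have a3 : (2 : ℕ) ^ (s + 15) = 2 ^ s * 32768 := by rw [pow_add]; norm_num
      rw [a1, a2, a3]
      omega
    have hZ := hC.few v
    have hU := hSt.unl v
    constructor
    · have h1 : {c | c < q ∧ v ∉ dom ((F c \ S c) ∪ (M c \ X' c))} ⊆
          ({c | c < q ∧ v ∈ Z c} ∪ {c | c < q ∧ v ∈ dom (S c) ∧ v ∉ dom (M c)}) ∪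
            {c | c < q ∧ v ∈ dom (X' c)} := by
        rintro c ⟨hc, hv⟩
        by_cases hz : v ∈ Z c
        · exact Or.inl (Or.inl ⟨hc, hz⟩)
        · obtain ⟨y, hy⟩ := (hC.cov c hc v hz).1
          have hys : (v, y) ∈ S c := by
            by_contra hns
            exact hv ⟨y, Or.inl ⟨hy, hns⟩⟩
          by_cases hm : v ∈ dom (M c)
          · obtain ⟨y', hy'⟩ := hm
            refine Or.inr ⟨hc, y', ?_⟩
            by_contra hx
            exact hv ⟨y', Or.inr ⟨hy', hx⟩⟩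
          · exact Or.inl (Or.inr ⟨hc, ⟨y, hys⟩, hm⟩)
      have h2 := hcnt (fun c => v ∈ dom (X' c)) fun j => by
        refine le_trans (le_of_eq ?_) (hX2 j v).1
        congr 1
        ext c
        constructor
        · rintro ⟨hc, hv⟩
          exact ⟨hc, hXj j c hc ▸ hv⟩
        · rintro ⟨hc, hv⟩
          exact ⟨hc, (hXj j c hc).symm ▸ hv⟩
      have h3 := Set.ncard_le_ncard h1
        (((hfinq fun c => v ∈ Z c).union (hfinq fun c => v ∈ dom (S c) ∧ v ∉ dom (M c))).union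
          (hfinq fun c => v ∈ dom (X' c)))
      have h4 := Set.ncard_union_le ({c | c < q ∧ v ∈ Z c} ∪
        {c | c < q ∧ v ∈ dom (S c) ∧ v ∉ dom (M c)}) {c | c < q ∧ v ∈ dom (X' c)}
      have h5 := Set.ncard_union_le {c | c < q ∧ v ∈ Z c}
        {c | c < q ∧ v ∈ dom (S c) ∧ v ∉ dom (M c)}
      have h6 := hU.1
      change {c | c < q ∧ v ∉ dom ((F c \ S c) ∪ (M c \ X' c))}.ncard ≤ 2 ^ (s + 15)
      omega
    · have h1 : {c | c < q ∧ v ∉ ran ((F c \ S c) ∪ (M c \ X' c))} ⊆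
          ({c | c < q ∧ v ∈ Z c} ∪ {c | c < q ∧ v ∈ ran (S c) ∧ v ∉ ran (M c)}) ∪
            {c | c < q ∧ v ∈ ran (X' c)} := by
        rintro c ⟨hc, hv⟩
        by_cases hz : v ∈ Z c
        · exact Or.inl (Or.inl ⟨hc, hz⟩)
        · obtain ⟨y, hy⟩ := (hC.cov c hc v hz).2
          have hys : (y, v) ∈ S c := by
            by_contra hns
            exact hv ⟨y, Or.inl ⟨hy, hns⟩⟩
          by_cases hm : v ∈ ran (M c)
          · obtain ⟨y', hy'⟩ := hm
            refine Or.inr ⟨hc, y', ?_⟩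
            by_contra hx
            exact hv ⟨y', Or.inr ⟨hy', hx⟩⟩
          · exact Or.inl (Or.inr ⟨hc, ⟨y, hys⟩, hm⟩)
      have h2 := hcnt (fun c => v ∈ ran (X' c)) fun j => by
        refine le_trans (le_of_eq ?_) (hX2 j v).2
        congr 1
        ext c
        constructor
        · rintro ⟨hc, hv⟩
          exact ⟨hc, hXj j c hc ▸ hv⟩
        · rintro ⟨hc, hv⟩
          exact ⟨hc, (hXj j c hc).symm ▸ hv⟩
      have h3 := Set.ncard_le_ncard h1
        (((hfinq fun c => v ∈ Z c).union (hfinq fun c => v ∈ ran (S c) ∧ v ∉ ran (M c))).union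
          (hfinq fun c => v ∈ ran (X' c)))
      have h4 := Set.ncard_union_le ({c | c < q ∧ v ∈ Z c} ∪
        {c | c < q ∧ v ∈ ran (S c) ∧ v ∉ ran (M c)}) {c | c < q ∧ v ∈ ran (X' c)}
      have h5 := Set.ncard_union_le {c | c < q ∧ v ∈ Z c}
        {c | c < q ∧ v ∈ ran (S c) ∧ v ∉ ran (M c)}
      have h6 := hU.2
      change {c | c < q ∧ v ∉ ran ((F c \ S c) ∪ (M c \ X' c))}.ncard ≤ 2 ^ (s + 15)
      omega

end Pool.Agent.LAX.H9
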